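import Mathlib
import Pool.Agent.H747ED.K6

set_option autoImplicit false

open Set Filter Topology MeasureTheory Metric
open scoped ContDiff ENNReal

namespace Pool.Agent.Results.MP_e277cf_an.EveryConnectivity

open Pool.Agent.H366R3.ED Pool.Agent.H747ED

/-- The complement of `D` in the Riemann sphere. -/
def sphereCompl (D : Set ℂ) : Set (OnePoint ℂ) := ((↑) '' D)ᶜ

/-- The set of connected components of the complement of `D` in the Riemann sphere. -/
def complComponents (D : Set ℂ) : Set (Set (OnePoint ℂ)) :=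
  (fun x => connectedComponentIn (sphereCompl D) x) '' sphereCompl D

/-- `D` is a `k`-connected domain: open, connected, and its complement in the Riemann sphere has
exactly `k` connected components. -/
def IsKConnectedDomain (k : ℕ) (D : Set ℂ) : Prop :=
  IsOpen D ∧ IsConnected D ∧ (complComponents D).encard = k

/-- `Ω` is contained in `Ω'` and the inclusion map is a homotopy equivalence. -/
def InclusionIsHomotopyEquiv (Ω Ω' : Set ℂ) : Prop :=
  Ω ⊆ Ω' ∧ ∃ e : ContinuousMap.HomotopyEquiv Ω Ω', ∀ z : Ω, ((e z : Ω') : ℂ) = z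

/-- The disk of radius `R` about the origin without the closed disks of radius `ρ` about the
`k - 1` points `j / (2 (k - 2))`, `0 ≤ j ≤ k - 2`, of the interval `[0, 1/2]`. -/
def holes (k : ℕ) (R ρ : ℝ) : Set ℂ :=
  {z | ‖z‖ < R ∧ ∀ j ∈ Finset.range (k - 1), ρ < ‖z - (((j : ℝ) / (2 * ((k : ℝ) - 2)) : ℝ) : ℂ)‖}

/-- the centers -/
noncomputable def cs (k : ℕ) : Finset ℝ :=
  (Finset.range (k - 1)).image fun j : ℕ => (j : ℝ) / (2 * ((k : ℝ) - 2))

lemma cs_pos {k : ℕ} (hk : 3 ≤ k) : (1 : ℝ) ≤ (k : ℝ) - 2 := by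
  have : ((3 : ℕ) : ℝ) ≤ (k : ℝ) := by exact_mod_cast hk
  push_cast at this
  linarith

lemma cs_card {k : ℕ} (hk : 3 ≤ k) : (cs k).card = k - 1 := by
  have h1 := cs_pos hk
  unfold cs
  rw [Finset.card_image_of_injective, Finset.card_range]
  intro i j hij
  have h2 : (i : ℝ) = (j : ℝ) := (div_left_inj' (by linarith)).1 hij
  exact_mod_cast h2

lemma holes_eq (k : ℕ) (R ρ : ℝ) : holes k R ρ = OmP (cs k) R ρ := by
  ext z
  simp only [holes, OmP, cs, Set.mem_ofPred_eq, Finset.mem_image, forall_exists_index, and_imp,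
    forall_apply_eq_imp_iff₂]

lemma cs_sep {k : ℕ} (hk : 3 ≤ k) : Pool.Agent.H366R3.ED.Sep (cs k) (1 / (8 * ((k : ℝ) - 2))) := by
  have h1 := cs_pos hk
  have h0 : (0 : ℝ) < 2 * ((k : ℝ) - 2) := by linarith
  refine ⟨?_, ?_, ?_, ?_, ?_, by positivity, ?_⟩
  · exact Finset.mem_image.2 ⟨0, Finset.mem_range.2 (by omega), by simp⟩
  · refine Finset.mem_image.2 ⟨k - 2, Finset.mem_range.2 (by omega), ?_⟩
    rw [Nat.cast_sub (by omega), div_eq_div_iff h0.ne' (by norm_num)]
    push_cast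
    ring
  · intro c hc
    obtain ⟨j, -, rfl⟩ := Finset.mem_image.1 hc
    positivity
  · intro c hc
    obtain ⟨j, hj, rfl⟩ := Finset.mem_image.1 hc
    rw [Finset.mem_range] at hj
    have h2 : (j : ℝ) ≤ (k : ℝ) - 2 := by
      have : ((j + 2 : ℕ) : ℝ) ≤ (k : ℝ) := by exact_mod_cast (by omega : j + 2 ≤ k)
      push_cast at this
      linarith
    rw [div_le_iff₀ h0]
    linarith
  · intro c hc c' hc' hne
    obtain ⟨i, -, rfl⟩ := Finset.mem_image.1 hc
    obtain ⟨j, -, rfl⟩ := Finset.mem_image.1 hc'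
    have hij : i ≠ j := by
      rintro rfl
      exact hne rfl
    have h2 : (1 : ℝ) ≤ |(i : ℝ) - (j : ℝ)| := by
      have h3 : (1 : ℤ) ≤ |(i : ℤ) - (j : ℤ)| := Int.one_le_abs (sub_ne_zero.2 (by exact_mod_cast hij))
      have h4 : ((1 : ℤ) : ℝ) ≤ ((|(i : ℤ) - (j : ℤ)| : ℤ) : ℝ) := by exact_mod_cast h3
      push_cast at h4
      exact h4
    rw [← sub_div, abs_div, abs_of_pos h0, le_div_iff₀ h0]
    have e : 4 * (1 / (8 * ((k : ℝ) - 2))) * (2 * ((k : ℝ) - 2)) = 1 := by
      have : (k : ℝ) - 2 ≠ 0 := by linarith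
      field_simp
      norm_num
    rw [e]
    exact h2
  · apply one_div_le_one_div_of_le (by norm_num)
    linarith

/-- The existence of energy-minimal diffeomorphisms fails for `k`-connected domains, for every
`k ≥ 3`: for all small `ρ > 0` the unit disk without `k - 1` closed disks of radius `ρ` about
equally spaced points of `[0, 1/2]` and the disk of radius `4` without the same closed disks are
bounded `k`-connected domains, the first is contained in the second and the inclusion is a homotopy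
equivalence, but no diffeomorphism of class `C^1` of the first onto the second attains the infimum
of the Dirichlet energy over the homeomorphisms of class `W^{1,2}`, although this infimum is
finite. -/
theorem result (k : ℕ) (hk : 3 ≤ k) : ∃ ρ₀ : ℝ, 0 < ρ₀ ∧ ∀ ρ : ℝ, 0 < ρ → ρ < ρ₀ →
    Bornology.IsBounded (holes k 1 ρ) ∧ Bornology.IsBounded (holes k 4 ρ) ∧
    IsKConnectedDomain k (holes k 1 ρ) ∧ IsKConnectedDomain k (holes k 4 ρ) ∧
    InclusionIsHomotopyEquiv (holes k 1 ρ) (holes k 4 ρ) ∧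
    energyInf (holes k 1 ρ) (holes k 4 ρ) < ⊤ ∧
    ¬ ∃ h : ℂ → ℂ, IsEnergyMinimalDiffeo (holes k 1 ρ) (holes k 4 ρ) h := by
  have hS := cs_sep hk
  set σ : ℝ := 1 / (8 * ((k : ℝ) - 2)) with hσ
  have hA : ∀ ρ : ℝ, 0 < ρ → ρ ≤ σ →
      Bornology.IsBounded (holes k 1 ρ) ∧ Bornology.IsBounded (holes k 4 ρ) ∧
      IsKConnectedDomain k (holes k 1 ρ) ∧ IsKConnectedDomain k (holes k 4 ρ) ∧
      InclusionIsHomotopyEquiv (holes k 1 ρ) (holes k 4 ρ) ∧
      energyInf (holes k 1 ρ) (holes k 4 ρ) < ⊤ := by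
    intro ρ hρ hρσ
    have hk' : ∀ R : ℝ, 1 ≤ R → IsKConnectedDomain k (holes k R ρ) := by
      intro R hR
      rw [holes_eq]
      refine ⟨OmP_open _ _ _, OmP_connected hS hR hρσ, ?_⟩
      have := OmP_comps hS hR hρ hρσ
      rw [cs_card hk] at this
      refine Eq.trans this ?_
      have e : k - 1 + 1 = k := by omega
      exact_mod_cast congrArg (fun n : ℕ => (n : ℕ∞)) e
    refine ⟨?_, ?_, hk' 1 le_rfl, hk' 4 (by norm_num), ?_, ?_⟩
    · rw [holes_eq]; exact isBounded_ball.subset (OmP_sub _ _)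
    · rw [holes_eq]; exact isBounded_ball.subset (OmP_sub _ _)
    · rw [holes_eq, holes_eq]
      exact ⟨OmP_mono, OmP_equiv hS hρσ⟩
    · rw [holes_eq, holes_eq]
      exact (energyInf_leP hS hρσ).trans_lt ENNReal.ofReal_lt_top
  by_contra hcon
  push Not at hcon
  have hseq : ∀ n : ℕ, ∃ ρ : ℝ, 0 < ρ ∧ ρ < σ / ((n : ℝ) + 1) ∧
      ∃ h : ℂ → ℂ, IsEnergyMinimalDiffeo (holes k 1 ρ) (holes k 4 ρ) h := by
    intro n
    obtain ⟨ρ, h1, h2, h3⟩ := hcon (σ / ((n : ℝ) + 1)) (div_pos hS.pos (by positivity))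
    have h4 : σ / ((n : ℝ) + 1) ≤ σ := by
      apply div_le_self hS.pos.le
      have : (0 : ℝ) ≤ n := n.cast_nonneg
      linarith
    obtain ⟨a1, a2, a3, a4, a5, a6⟩ := hA ρ h1 (by linarith)
    exact ⟨ρ, h1, h2, h3 a1 a2 a3 a4 a5 a6⟩
  choose ρ h1 h2 h h3 using hseq
  simp only [holes_eq] at h3
  refine no_seqP hS (ρ := ρ) (h := h) h1 (fun n => ?_) ?_ h3
  · have h4 : σ / ((n : ℝ) + 1) ≤ σ := by
      apply div_le_self hS.pos.le
      have : (0 : ℝ) ≤ n := n.cast_nonneg
      linarith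
    linarith [h2 n]
  · apply squeeze_zero (fun n => (h1 n).le) (fun n => (h2 n).le)
    have h5 := tendsto_one_div_add_atTop_nhds_zero_nat (𝕜 := ℝ)
    have h6 := h5.const_mul σ
    rw [mul_zero] at h6
    refine h6.congr fun n => ?_
    rw [mul_one_div]

end Pool.Agent.Results.MP_e277cf_an.EveryConnectivity
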